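import Pool.Agent.J4H59.PL.Stm

/-! Job (EX0) of project CY: exactness for finitely supported rational functions on the group. -/

set_option autoImplicit false

open scoped Classical

namespace Pool.Agent.J4H12.CY

open Pool.Agent.Helper386.PD3 Pool.Agent.J4H59.PD Pool.Agent.J4H59.PE Pool.Agent.J4H59.PF Pool.Agent.J4H59.PL

noncomputable section

/-- `1/m` at the unit element -/
def dlt (G : Type) [Group G] (m : ℕ) : FQ (OmI Unit G) := fun z => if z.2 = 1 then 1 / (m : ℚ) else 0

theorem smul_dlt {G : Type} [Group G] (m : ℕ) (r : RR G) (z : OmI Unit G) :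
    (r • dlt G m) z = (r.coeff z.2 : ℚ) * (1 / (m : ℚ)) := by
  induction r using rr_ind with
  | h1 g =>
    rw [gofq_apply]
    change (if g⁻¹ * z.2 = 1 then 1 / (m : ℚ) else 0) = _
    have h1 : (gof g : RR G).coeff z.2 = (Finsupp.single g (1 : ℤ)) z.2 := rfl
    rw [h1, Finsupp.single_apply]
    by_cases h : g = z.2
    · rw [← h]
      simp
    · have h2 : ¬ g⁻¹ * z.2 = 1 := fun h' => h (inv_mul_eq_one.1 h')
      rw [if_neg h2, if_neg h]
      simp
  | h2 a b ha hb =>
    rw [add_smul, fqadd_apply, ha, hb, rr_add_coeff]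
    push_cast
    ring
  | h3 a ha =>
    rw [neg_smul, fqneg_apply, ha]
    have : (-a).coeff z.2 = -(a.coeff z.2) := rfl
    rw [this]
    push_cast
    ring

theorem col_dlt {G : Type} [Group G] {n : ℕ} (D : MR G n) (m : ℕ) (a : Fin n → RR G) :
    col D (fun i => a i • dlt G m) = fun i => col D a i • dlt G m := by
  funext i
  change ∑ j, D i j • a j • dlt G m = (∑ j, D i j • a j) • dlt G m
  rw [Finset.sum_smul]
  exact Finset.sum_congr rfl fun j _ => by rw [smul_eq_mul, mul_smul]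

theorem dlt_inj {G : Type} [Group G] {m : ℕ} (hm : m ≠ 0) {a b : RR G} (h : a • dlt G m = b • dlt G m) : a = b := by
  refine rr_ext fun x => ?_
  have h1 := congrArg (fun f : FQ (OmI Unit G) => f (omk () x)) h
  simp only [smul_dlt] at h1
  have hm' : (1 / (m : ℚ)) ≠ 0 := by positivity
  have h2 := mul_right_cancel₀ hm' h1
  exact_mod_cast h2

theorem common_den (S : Finset ℚ) : ∃ m : ℕ, m ≠ 0 ∧ ∀ q ∈ S, ∃ z : ℤ, (z : ℚ) = m * q := by
  induction S using Finset.induction_on with
  | empty => exact ⟨1, one_ne_zero, fun q hq => absurd hq (Finset.notMem_empty q)⟩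
  | insert q S _ ih =>
    obtain ⟨m, hm, h⟩ := ih
    refine ⟨m * q.den, mul_ne_zero hm q.den_ne_zero, ?_⟩
    intro p hp
    rcases Finset.mem_insert.1 hp with rfl | hp
    · refine ⟨m * p.num, ?_⟩
      push_cast
      rw [mul_assoc, mul_comm (p.den : ℚ) p, Rat.mul_den_eq_num]
    · obtain ⟨z, hz⟩ := h p hp
      refine ⟨z * q.den, ?_⟩
      push_cast
      rw [hz]
      ring

theorem t_EX0 (G : Type) [Group G] (n : ℕ) (w : G →* ℤˣ) (e0 e1 e2 e3 d0 d1 d2 : MR G n)
    (h : Full w e0 e1 e2 e3 d0 d1 d2) (ψ : Fin n → FQ (OmI Unit G)) (hf : ∀ i, {z | ψ i z ≠ 0}.Finite)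
    (h1 : col e2 ψ = ψ) (h2 : col d2 ψ = 0) :
    ∃ θ : Fin n → FQ (OmI Unit G), (∀ i, {z | θ i z ≠ 0}.Finite) ∧ col d1 θ = ψ := by
  have hval : (⋃ i, ψ i '' {z | ψ i z ≠ 0}).Finite := Set.finite_iUnion fun i => (hf i).image _
  obtain ⟨m, hm, hz⟩ := common_den hval.toFinset
  have hint : ∀ i z, ∃ c : ℤ, (c : ℚ) = m * ψ i z := by
    intro i z
    by_cases h0 : ψ i z = 0
    · exact ⟨0, by rw [h0]; simp⟩
    · refine hz _ ?_
      rw [Set.Finite.mem_toFinset]
      exact Set.mem_iUnion.2 ⟨i, z, h0, rfl⟩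
  choose c hc using hint
  have hm' : (m : ℚ) ≠ 0 := by exact_mod_cast hm
  have hcf : ∀ i, {x : G | c i (omk () x) ≠ 0}.Finite := by
    intro i
    refine ((hf i).image fun z : OmI Unit G => z.2).subset ?_
    intro x hx
    refine ⟨omk () x, ?_, rfl⟩
    intro h0
    apply hx
    have h3 := hc i (omk () x)
    rw [h0, mul_zero] at h3
    exact_mod_cast h3
  obtain ⟨r, hr⟩ : ∃ r : Fin n → RR G, ∀ i x, (r i).coeff x = c i (omk () x) :=
    ⟨fun i => toRR (fun x => c i (omk () x)) (hcf i), fun i x => toRR_coeff _ _ _⟩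
  have hψ : ψ = fun i => r i • dlt G m := by
    funext i
    refine fq_ext fun z => ?_
    rw [smul_dlt, hr]
    have h3 : omk () z.2 = z := rfl
    rw [h3, hc]
    field_simp
  obtain ⟨θ, hθ⟩ := exact2_RR h r (by
      funext i
      have h3 := h1
      rw [hψ, col_dlt] at h3
      exact dlt_inj hm (congrFun h3 i)) (by
      funext i
      have h3 := h2
      rw [hψ, col_dlt] at h3
      have h4 := congrFun h3 i
      refine dlt_inj hm (h4.trans ?_)
      exact (zero_smul (RR G) (dlt G m)).symm)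
  refine ⟨fun i => θ i • dlt G m, fun i => ?_, ?_⟩
  · refine ((rr_supp_finite (θ i)).image fun x => omk () x).subset ?_
    intro z hz
    refine ⟨z.2, ?_, rfl⟩
    intro h0
    apply hz
    have h0' : (θ i).coeff z.2 = 0 := h0
    change (θ i • dlt G m) z = 0
    rw [smul_dlt, h0']
    simp
  · rw [col_dlt, hθ, hψ]

end

end Pool.Agent.J4H12.CY

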