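import Pool.Agent.J4H59.PL.Stm2
import Pool.Agent.J4H59.PI.Coh
import Pool.Agent.J4H12.CY.Ex0

/-! Jobs (EX0) and (AB) of project CY. -/

set_option autoImplicit false

open scoped Classical

namespace Pool.Agent.J4H12.CY

open Pool.Agent.Helper386.PD3 Pool.Agent.J4H59.PD Pool.Agent.J4H59.PE Pool.Agent.J4H59.PF Pool.Agent.J4H59.PL
open Pool.Agent.J4H59.PI

noncomputable section

theorem t_EX0' : S_EX0 := fun G _ n w e0 e1 e2 e3 d0 d1 d2 h ψ hf h1 h2 => t_EX0 G n w e0 e1 e2 e3 d0 d1 d2 h ψ hf h1 h2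

/-- functions of finite support on the group -/
def finV {G : Type} [Group G] (N : Subgroup G) : Vq N (OmI Unit G) where
  p := fun z => (z.2 : G ⧸ N)
  V := mkSubq (fun f => (spq f).Finite) (by
      refine Set.finite_empty.subset ?_
      intro z hz
      exact absurd rfl hz)
    (fun f f' h h' => (h.union h').subset (spq_add f f')) (fun f h => h.subset (spq_neg f))
    (fun g f h => by
      refine (h.image fun z => g • z).subset ?_
      intro z hz
      refine ⟨g⁻¹ • z, ?_, smul_inv_smul _ _⟩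
      change (gof g • f) z ≠ 0 at hz
      rw [gofq_apply] at hz
      exact hz)
  hp := fun g x => rfl
  hcut := fun f (hf : (spq f).Finite) y => hf.subset (spq_cutq _ _)
  hfin := fun f (hf : (spq f).Finite) => hf.image _
  hsc := fun f (hf : (spq f).Finite) q => hf.subset (spq_scq q f)

theorem mem_finV {G : Type} [Group G] {N : Subgroup G} {f : FQ (OmI Unit G)} : f ∈ (finV N).V ↔ (spq f).Finite := Iff.rfl

theorem finV_p {G : Type} [Group G] {N : Subgroup G} (x : OmI Unit G) : (finV N).p x = (x.2 : G ⧸ N) := rfl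

/-- piece (AB) -/
theorem t_AB : S_LFT → S_EX0 → S_AB := by
  intro hLFT hEX0 G _ n w e0 e1 e2 e3 d0 d1 d2 hF htf N H hNfg hNinf hNall hNH hpow Rp Rm hRp hRm hRH hRpN hRmN hfinR D hD hDR
  obtain ⟨𝒱, h𝒱⟩ : ∃ 𝒱 : Vq N (OmI Unit G), 𝒱 = finV N := ⟨_, rfl⟩
  have hp : ∀ x : OmI Unit G, 𝒱.p x = (x.2 : G ⧸ N) := fun x => by rw [h𝒱]; rfl
  have hmemV : ∀ f, f ∈ 𝒱.V ↔ (spq f).Finite := fun f => by rw [h𝒱]; rfl
  have hfinv : ∀ f ∈ 𝒱.V, ∀ i, {g : G | f (omk i g) ≠ 0}.Finite := by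
    intro f hf i
    rw [hmemV] at hf
    refine Set.Finite.of_finite_image (f := fun g : G => (omk i g : OmI Unit G)) (hf.subset ?_) ?_
    · rintro _ ⟨g, hg, rfl⟩
      exact hg
    · intro g _ g' _ h
      exact congrArg Prod.snd h
  -- membership in `MQ`
  have hMQ : ∀ (R : Set (G ⧸ N)) (f : FQ (OmI Unit G)),
      (∀ y : G, {m : N | f (omk () (y * m)) ≠ 0}.Finite) → Ov R {x : G | f (omk () x) ≠ 0} → f ∈ 𝒱.MQ (le_refl N) R := by
    intro R f h1 h2
    refine ⟨fun y => ?_, fun z => ?_, ?_⟩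
    · rw [hmemV]
      obtain ⟨y, rfl⟩ := QuotientGroup.mk_surjective y
      refine ((h1 y).image fun m : N => (omk () (y * (m : G)) : OmI Unit G)).subset ?_
      intro z hz
      have hz' : cutq {x | 𝒱.p x = (y : G ⧸ N)} f z ≠ 0 := hz
      have hz1 : z ∈ {x | 𝒱.p x = (y : G ⧸ N)} := by
        by_contra hcon
        exact hz' (cutq_of_notMem f hcon)
      rw [cutq_of_mem f hz1] at hz'
      have hz2 : 𝒱.p z = (y : G ⧸ N) := hz1
      rw [hp, eq_comm, QuotientGroup.eq] at hz2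
      refine ⟨⟨y⁻¹ * z.2, hz2⟩, ?_, ?_⟩
      · change f (omk () (y * (y⁻¹ * z.2))) ≠ 0
        rw [mul_inv_cancel_left]
        exact hz'
      · change omk () (y * (y⁻¹ * z.2)) = z
        rw [mul_inv_cancel_left]
        rfl
    · refine (Set.finite_singleton z).subset ?_
      rintro y ⟨-, hy⟩
      rw [puN] at hy
      exact hy
    · obtain ⟨T, hT⟩ := h2
      refine ⟨T, fun x hx => ?_⟩
      obtain ⟨g, hg, h⟩ := hT x.2 hx
      refine ⟨g, hg, ?_⟩
      rw [puN, hp]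
      exact h
  have hOv : ∀ (R : Set (G ⧸ N)) (f : FQ (OmI Unit G)), f ∈ 𝒱.MQ (le_refl N) R → Ov R {x : G | f (omk () x) ≠ 0} := by
    rintro R f ⟨-, -, T, hT⟩
    refine ⟨T, fun x hx => ?_⟩
    obtain ⟨g, hg, h⟩ := hT (omk () x) hx
    rw [puN, hp] at h
    exact ⟨g, hg, h⟩
  -- the characteristic function
  obtain ⟨χ, hχ⟩ : ∃ χ : FQ (OmI Unit G), ∀ x : G, χ (omk () x) = if x ∈ D then 1 else 0 :=
    ⟨fun z => if z.2 ∈ D then 1 else 0, fun x => rfl⟩
  have hχcell : ∀ y : G, {m : N | χ (omk () (y * m)) ≠ 0}.Finite := by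
    intro y
    refine Set.Subsingleton.finite ?_
    intro m hm m' hm'
    have h1 : y * (m : G) ∈ D := by
      by_contra hcon
      exact hm (by rw [hχ, if_neg hcon])
    have h2 : y * (m' : G) ∈ D := by
      by_contra hcon
      exact hm' (by rw [hχ, if_neg hcon])
    have h3 : y * (m : G) * ((m⁻¹ * m' : N) : G) = y * m' := by
      rw [Subgroup.coe_mul, Subgroup.coe_inv]; group
    have h4 := hD _ h1 _ (m⁻¹ * m' : N).2 (by rw [h3]; exact h2)
    have h5 : (m⁻¹ * m' : N) = 1 := Subtype.ext h4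
    exact (inv_mul_eq_one.1 h5)
  obtain ⟨δ, hδ⟩ : ∃ δ : G → FQ (OmI Unit G), ∀ g, δ g = gof g • χ - χ := ⟨_, fun _ => rfl⟩
  have hδx : ∀ g x, δ g (omk () x) = χ (omk () (g⁻¹ * x)) - χ (omk () x) := by
    intro g x
    rw [hδ, fqsub_apply, gofq_apply, omI_smul]
  have hδder : Der δ := by
    intro g h
    rw [hδ, hδ, hδ, gof_mul, mul_smul, smul_sub]
    abel
  have hδmem : ∀ g, δ g ∈ 𝒱.MQ (le_refl N) Rp ⊔ 𝒱.MQ (le_refl N) Rm := by
    intro g
    rw [𝒱.MQ_sup]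
    refine hMQ _ _ ?_ ?_
    · intro y
      refine ((hχcell (g⁻¹ * y)).union (hχcell y)).subset ?_
      intro m hm
      by_contra hcon
      rw [Set.mem_union, not_or] at hcon
      have h1 : χ (omk () (g⁻¹ * y * m)) = 0 := not_not.1 hcon.1
      have h2 : χ (omk () (y * m)) = 0 := not_not.1 hcon.2
      apply hm
      rw [hδx, ← mul_assoc, h1, h2, sub_zero]
    · obtain ⟨T, hT⟩ := hDR g
      refine ⟨T, fun x hx => hT x ?_⟩
      intro hiff
      apply hx
      rw [hδx, hχ, hχ]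
      by_cases h : x ∈ D
      · rw [if_pos h, if_pos (hiff.2 h), sub_self]
      · rw [if_neg h, if_neg fun h' => h (hiff.1 h'), sub_self]
  have hinf := 𝒱.MQ_inf (le_refl N) hRp hRm hfinR
  obtain ⟨E, L, hE, hL, hEA, hLB, hEL⟩ := hLFT G n w e0 e1 e2 e3 d0 d1 d2 hF (FQ (OmI Unit G)) (𝒱.MQ (le_refl N) Rp)
    (𝒱.MQ (le_refl N) Rm) (by
      intro ψ hψ h1 h2
      rw [hinf] at hψ ⊢
      obtain ⟨θ, hθ, hθ'⟩ := hEX0 G n w e0 e1 e2 e3 d0 d1 d2 hF ψ (fun i => (hmemV _).1 (hψ i)) h1 h2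
      exact ⟨θ, fun i => (hmemV _).2 (hθ i), hθ'⟩) δ hδder hδmem
  -- generators of `N`
  obtain ⟨d, x, hx⟩ := exists_gens hNfg
  obtain ⟨u, hu1⟩ := exists_ne (1 : N)
  have hu1 : (u : G) ≠ 1 := fun h => hu1 (Subtype.ext h)
  have main : ∀ (R : Set (G ⧸ N)), (∀ c ∈ R, pu H c = ((1 : G) : G ⧸ H)) → (∀ m ∈ N, ∀ c ∈ R, m • c ∈ R) →
      ∀ K : G → FQ (OmI Unit G), Der K → (∀ g, K g ∈ 𝒱.MQ (le_refl N) R) →
      ∃ α : G → ℚ, (∀ (g : G) (x : G), α (g⁻¹ * x) - α x = K g (omk () x)) ∧ (∀ y : G, {m : N | α (y * m) ≠ 0}.Finite) ∧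
        ∀ a : G ⧸ H, Ov R {x | (x : G ⧸ H) = a ∧ α x ≠ 0} := by
    intro R hRH hRN K hK hKR
    have hder : ∀ g h, (⟨K (g * h), hKR _⟩ : 𝒱.MQ (le_refl N) R) = ⟨K g, hKR _⟩ + gof g • ⟨K h, hKR _⟩ :=
      fun g h => Subtype.ext (hK g h)
    obtain ⟨φ, c, hφ, hc, hm⟩ := exists_potq 𝒱 hp hfinv (le_refl N) R hx hNall hNinf (fun g => ⟨K g, hKR g⟩) hder
    refine ⟨fun y => φ () y - c () y, fun g y => hm g () y, fun y => ?_, fun a => ?_⟩
    · have hcc : ∀ m : N, c () (y * m) = c () y := by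
        intro m
        have h1 := hc () (y * m)
        have h2 : {m' : N | φ () (y * m * m') ≠ c () y}.Finite := by
          refine ((hc () y).image fun m' => m⁻¹ * m').subset ?_
          intro m' hm'
          refine ⟨m * m', ?_, inv_mul_cancel_left _ _⟩
          change φ () (y * ((m * m' : N) : G)) ≠ c () y
          rw [Subgroup.coe_mul, ← mul_assoc]
          exact hm'
        obtain ⟨m', hm'⟩ := (h1.union h2).exists_notMem
        rw [Set.mem_union, not_or] at hm'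
        have h3 : φ () (y * m * m') = c () (y * m) := not_not.1 hm'.1
        have h4 : φ () (y * m * m') = c () y := not_not.1 hm'.2
        rw [← h3, h4]
      refine (hc () y).subset fun m hm0 h => hm0 ?_
      change φ () (y * m) - c () (y * m) = 0
      rw [hcc, h, sub_self]
    · obtain ⟨T, hT⟩ := small_coset 𝒱 hp hNH R hRH hRN hu1 (fun h hh => hpow u u.2 h hh) htf (fun g => ⟨K g, hKR g⟩) φ c hφ hc a
      refine ⟨T, fun y hy => hT () y hy.1 fun h => hy.2 ?_⟩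
      change φ () y - c () y = 0
      rw [h, sub_self]
  obtain ⟨α, hα1, hα2, hα3⟩ := main Rp (fun c hc => hRH c (Or.inl hc)) hRpN E hE hEA
  obtain ⟨β, hβ1, hβ2, hβ3⟩ := main Rm (fun c hc => hRH c (Or.inr hc)) hRmN L hL hLB
  have hγ : ∀ x y : G, α x + β x - χ (omk () x) = α y + β y - χ (omk () y) := by
    intro x y
    have h1 := hα1 (y * x⁻¹) y
    have h2 := hβ1 (y * x⁻¹) y
    have h3 := hδx (y * x⁻¹) y
    rw [hEL, fqadd_apply, ← h1, ← h2] at h3
    have h4 : (y * x⁻¹)⁻¹ * y = x := by group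
    rw [h4] at h3
    linarith
  refine ⟨α, β, ?_, hα2, hβ2, ?_, ?_, hα3, hβ3⟩
  · intro x
    obtain ⟨m, hm⟩ := (((hα2 x).union (hβ2 x)).union (hχcell x)).exists_notMem
    rw [Set.mem_union, Set.mem_union, not_or, not_or] at hm
    have h1 : α (x * m) = 0 := not_not.1 hm.1.1
    have h2 : β (x * m) = 0 := not_not.1 hm.1.2
    have h3 : χ (omk () (x * m)) = 0 := not_not.1 hm.2
    have h4 := hγ x (x * m)
    rw [h1, h2, h3] at h4
    rw [← hχ]
    linarith
  · intro g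
    obtain ⟨T, hT⟩ := hOv _ _ (hEA g)
    refine ⟨T, fun x hx => hT x ?_⟩
    intro h
    apply hx
    have h1 := hα1 g x
    rw [h] at h1
    linarith
  · intro g
    obtain ⟨T, hT⟩ := hOv _ _ (hLB g)
    refine ⟨T, fun x hx => hT x ?_⟩
    intro h
    apply hx
    have h1 := hβ1 g x
    rw [h] at h1
    linarith

end

end Pool.Agent.J4H12.CY

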